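import Pool.Agent.helper39.FJ.SpecE

/-!
# fj: G2, injectivity on a finite dimensional subspace of `V_l` from finitely many torsion elements
-/

namespace Pool.Agent.FJ

open Polynomial

noncomputable section

theorem G2_dec (l : ℕ) [Fact l.Prime] (c : ℤ_[l]) (n : ℕ) :
    ∃ a : ℕ, a < l ^ n ∧ ∃ z : ℤ_[l], c = a + (l : ℤ_[l]) ^ n * z := by
  refine ⟨c.appr n, PadicInt.appr_lt c n, ?_⟩
  obtain ⟨z, hz⟩ := Ideal.mem_span_singleton'.1 (PadicInt.appr_spec n c)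
  refine ⟨z, ?_⟩
  rw [mul_comm] at hz
  rw [hz]
  ring

theorem G2_nsmul {l : ℕ} [Fact l.Prime] {A : Type} [AddCommGroup A] (f : VT l A) (n : ℕ)
    (x : ℚ_[l]) : f.val ((n : ℚ_[l]) * x) = n • f.val x := by
  rw [← nsmul_eq_mul]
  exact map_nsmul f.1 n x

/-- the value at `c l^(-n)` of a function vanishing on `ℤ_l`. -/
theorem G2_val {l : ℕ} [Fact l.Prime] {A : Type} [AddCommGroup A] (f : VT l A)
    (hf : ∀ z : ℤ_[l], f.val z = 0) (c : ℤ_[l]) (n : ℕ) :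
    ∃ a : ℕ, a < l ^ n ∧ f.val ((c : ℚ_[l]) * ((l : ℚ_[l]) ^ n)⁻¹) =
      a • f.val (((l : ℚ_[l]) ^ n)⁻¹) := by
  have hl : (l : ℚ_[l]) ≠ 0 := by
    exact_mod_cast (Fact.out : l.Prime).ne_zero
  obtain ⟨a, ha, z, hz⟩ := G2_dec l c n
  refine ⟨a, ha, ?_⟩
  have h1 : (c : ℚ_[l]) * ((l : ℚ_[l]) ^ n)⁻¹ = (a : ℚ_[l]) * ((l : ℚ_[l]) ^ n)⁻¹ + (z : ℚ_[l]) := by
    rw [hz]
    push_cast
    field_simp
  rw [h1, VT.val_add, hf z, add_zero, G2_nsmul]

theorem G2_sum {l : ℕ} [Fact l.Prime] {A : Type} [AddCommGroup A] {r : ℕ} (f : Fin r → VT l A)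
    (x : ℚ_[l]) : (∑ i, f i).val x = ∑ i, (f i).val x := by
  have h : ∀ s : Finset (Fin r), (∑ i ∈ s, f i).val x = ∑ i ∈ s, (f i).val x := by
    intro s
    induction s using Finset.cons_induction with
    | empty => simp
    | cons a s ha ih => rw [Finset.sum_cons, Finset.sum_cons, VT.add_val, ih]
  exact h _

theorem G2 (h1 : G1_stmt) : G2_stmt := by
  intro l _ A _ U _ e
  have hl : (l : ℚ_[l]) ≠ 0 := by
    exact_mod_cast (Fact.out : l.Prime).ne_zero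
  obtain ⟨r, f, hf, hgen⟩ := h1 l A U
  set w : ℚ_[l] := ((l : ℚ_[l]) ^ (e + 1))⁻¹ with hw
  set S0 : Set A := {s | ∃ g ∈ U, (∀ z : ℤ_[l], g.val z = 0) ∧ g.val (l : ℚ_[l])⁻¹ ≠ 0 ∧ s = g.val w}
    with hS0
  have hfin : S0.Finite := by
    have hsub : S0 ⊆ Set.range (fun a : Fin r → Fin (l ^ (e + 1)) =>
        ∑ i, ((a i : ℕ)) • (f i).val w) := by
      rintro s ⟨g, hg, hg0, -, rfl⟩
      obtain ⟨c, hc⟩ := hgen g hg hg0
      choose a ha1 ha2 using fun i => G2_val (f i) (hf i).2 (c i) (e + 1)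
      refine ⟨fun i => ⟨a i, ha1 i⟩, ?_⟩
      rw [hc, G2_sum]
      refine Finset.sum_congr rfl fun i _ => ?_
      rw [VT.smul_val]
      exact (ha2 i).symm
    exact (Set.finite_range _).subset hsub
  refine ⟨hfin.toFinset, ?_, ?_⟩
  · intro s hs
    rw [Set.Finite.mem_toFinset] at hs
    obtain ⟨g, hg, hg0, hg1, rfl⟩ := hs
    constructor
    · rw [← G2_nsmul]
      have : ((l ^ e : ℕ) : ℚ_[l]) * w = (l : ℚ_[l])⁻¹ := by
        rw [hw]
        push_cast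
        rw [pow_succ]
        field_simp
      rw [this]
      exact hg1
    · rw [← G2_nsmul]
      have : ((l ^ (e + 1) : ℕ) : ℚ_[l]) * w = ((1 : ℤ_[l]) : ℚ_[l]) := by
        rw [hw]
        push_cast
        field_simp
      rw [this]
      exact hg0 1
  · intro B _ φ hφ g hg hφg
    by_contra hne
    have hφ0 : ∀ x, φ (g.val x) = 0 := fun x => by
      have := congrArg (fun h => VT.val h x) hφg
      simpa using this
    -- a point where `g` does not vanish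
    obtain ⟨x, hx⟩ : ∃ x, g.val x ≠ 0 := by
      by_contra hcon
      push Not at hcon
      exact hne (VT.ext fun x => hcon x)
    obtain ⟨j, hj⟩ : ∃ j : ℕ, ‖(l : ℚ_[l]) ^ j * x‖ ≤ 1 := by
      have hl1 : ‖(l : ℚ_[l])‖ < 1 := Padic.norm_p_lt_one
      have h0 : Filter.Tendsto (fun j : ℕ => ‖(l : ℚ_[l])‖ ^ j * ‖x‖) Filter.atTop
          (nhds (0 * ‖x‖)) :=
        (tendsto_pow_atTop_nhds_zero_of_lt_one (norm_nonneg _) hl1).mul_const _
      rw [zero_mul] at h0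
      obtain ⟨j, hj⟩ := (h0.eventually (gt_mem_nhds (zero_lt_one))).exists
      refine ⟨j, ?_⟩
      rw [norm_mul, norm_pow]
      exact hj.le
    set g1 : VT l A := ((l : ℚ_[l]) ^ j)⁻¹ • g with hg1
    have hg1U : g1 ∈ U := U.smul_mem _ hg
    have hg1x : g1.val ((⟨(l : ℚ_[l]) ^ j * x, hj⟩ : ℤ_[l]) : ℚ_[l]) ≠ 0 := by
      rw [hg1, VT.smul_val]
      have : ((l : ℚ_[l]) ^ j)⁻¹ * ((⟨(l : ℚ_[l]) ^ j * x, hj⟩ : ℤ_[l]) : ℚ_[l]) = x := by
        show ((l : ℚ_[l]) ^ j)⁻¹ * ((l : ℚ_[l]) ^ j * x) = x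
        field_simp
      rw [this]
      exact hx
    classical
    have hex : ∃ k : ℕ, ∀ z : ℤ_[l], g1.val ((l : ℚ_[l]) ^ k * z) = 0 := g1.2
    set k0 := Nat.find hex with hk0
    have hk0s : ∀ z : ℤ_[l], g1.val ((l : ℚ_[l]) ^ k0 * z) = 0 := Nat.find_spec hex
    have hk0pos : k0 ≠ 0 := by
      intro h0
      rw [h0] at hk0s
      apply hg1x
      have := hk0s ⟨(l : ℚ_[l]) ^ j * x, hj⟩
      rw [pow_zero, one_mul] at this
      exact this
    obtain ⟨k1, hk1⟩ := Nat.exists_eq_succ_of_ne_zero hk0pos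
    have hk1n : ¬ ∀ z : ℤ_[l], g1.val ((l : ℚ_[l]) ^ k1 * z) = 0 := by
      apply Nat.find_min hex
      rw [← hk0, hk1]
      exact Nat.lt_succ_self _
    push Not at hk1n
    obtain ⟨z, hz⟩ := hk1n
    set g2 : VT l A := ((l : ℚ_[l]) ^ k0) • g1 with hg2
    have hg2U : g2 ∈ U := U.smul_mem _ hg1U
    have hg20 : ∀ z : ℤ_[l], g2.val z = 0 := fun z => by
      rw [hg2, VT.smul_val]
      exact hk0s z
    have hg21 : g2.val (l : ℚ_[l])⁻¹ ≠ 0 := by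
      intro h0
      apply hz
      have h3 : g1.val ((l : ℚ_[l]) ^ k1 * z) = g2.val ((z : ℚ_[l]) * ((l : ℚ_[l]) ^ 1)⁻¹) := by
        have hkey : (l : ℚ_[l]) ^ k0 * ((z : ℚ_[l]) * ((l : ℚ_[l]) ^ 1)⁻¹) =
            (l : ℚ_[l]) ^ k1 * z := by
          rw [hk1, Nat.succ_eq_add_one, pow_succ, pow_one]
          field_simp
        exact (congrArg g1.val hkey).symm
      rw [h3]
      obtain ⟨a, -, ha⟩ := G2_val g2 hg20 z 1
      rw [ha, pow_one, h0, smul_zero]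
    have hs : g2.val w ∈ hfin.toFinset := by
      rw [Set.Finite.mem_toFinset]
      exact ⟨g2, hg2U, hg20, hg21, rfl⟩
    apply hφ _ hs
    rw [hg2, hg1, VT.smul_val, VT.smul_val]
    exact hφ0 _

end

end Pool.Agent.FJ
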